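import Pool.Agent.H87.LUY.Stmts

set_option autoImplicit false

namespace Pool.LU.FK

theorem cut (dmo : DMOStmt) : CUTStmt := by
  classical
  intro I J _ _ _ Z Z' S _ η K hη hK hZ hKZ
  set e : {i // S i} ⊕ {i // ¬ S i} ≃ I := Equiv.sumCompl S with he
  -- rows
  set P : Matrix {i // S i} J ℝ := Matrix.of fun i j => Z i.1 j with hP
  set P' : Matrix {i // S i} J ℝ := Matrix.of fun i j => Z' i.1 j with hP'
  set N : Matrix {i // ¬ S i} J ℝ := Matrix.of fun i j => Z i.1 j with hN
  set D : Matrix {i // ¬ S i} {i // ¬ S i} ℝ := N * N.transpose + η • 1 with hD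
  have hDpd : D.PosDef := by
    rw [hD]
    have h1 : (N * N.transpose).PosSemidef := by
      simpa using Matrix.posSemidef_self_mul_conjTranspose N
    have h2 : (η • (1 : Matrix {i // ¬ S i} {i // ¬ S i} ℝ)).PosDef :=
      Matrix.PosDef.one.smul hη
    exact Matrix.PosDef.posSemidef_add h1 h2
  let inst : Invertible D := hDpd.isUnit.invertible
  have hsplit : ∀ (W : Matrix I J ℝ), (∀ i j, ¬ S i → Z i j = W i j) →
      (W * W.transpose + η • (1 : Matrix I I ℝ)).submatrix e e =
      Matrix.fromBlocks ((Matrix.of fun (i : {i // S i}) j => W i.1 j) *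
        (Matrix.of fun (i : {i // S i}) j => W i.1 j).transpose + η • 1)
        ((Matrix.of fun (i : {i // S i}) j => W i.1 j) * N.transpose)
        ((Matrix.of fun (i : {i // S i}) j => W i.1 j) * N.transpose).transpose D := by
    intro W hW
    ext s t
    rcases s with s | s <;> rcases t with t | t
    · simp [he, Matrix.mul_apply, Matrix.one_apply, Subtype.ext_iff]
    · have hst : (s : I) ≠ t := fun h => t.2 (h ▸ s.2)
      simp only [he, Matrix.submatrix_apply, Matrix.add_apply, Matrix.mul_apply,
        Matrix.transpose_apply, Matrix.smul_apply, Matrix.one_apply, Equiv.sumCompl_apply_inl,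
        Equiv.sumCompl_apply_inr, Matrix.fromBlocks_apply₁₂, Matrix.of_apply, hN, if_neg hst,
        smul_zero, add_zero]
      refine Finset.sum_congr rfl fun j _ => ?_
      rw [hW t.1 j t.2]
    · have hst : (s : I) ≠ t := fun h => s.2 (h ▸ t.2)
      simp only [he, Matrix.submatrix_apply, Matrix.add_apply, Matrix.mul_apply,
        Matrix.transpose_apply, Matrix.smul_apply, Matrix.one_apply, Equiv.sumCompl_apply_inl,
        Equiv.sumCompl_apply_inr, Matrix.fromBlocks_apply₂₁, Matrix.of_apply, hN, if_neg hst,
        smul_zero, add_zero]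
      refine Finset.sum_congr rfl fun j _ => ?_
      rw [hW s.1 j s.2, mul_comm]
    · simp only [he, hD, Matrix.submatrix_apply, Matrix.add_apply, Matrix.mul_apply,
        Matrix.transpose_apply, Matrix.smul_apply, Matrix.one_apply,
        Equiv.sumCompl_apply_inr, Matrix.fromBlocks_apply₂₂, Matrix.of_apply, hN]
      congr 1
      · refine Finset.sum_congr rfl fun j _ => ?_
        rw [hW s.1 j s.2, hW t.1 j t.2]
      · simp [Subtype.ext_iff]
  have hgd : ∀ (W : Matrix I J ℝ), (∀ i j, ¬ S i → Z i j = W i j) →
      gd η W = D.det * (((Matrix.of fun (i : {i // S i}) j => W i.1 j) *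
        (Matrix.of fun (i : {i // S i}) j => W i.1 j).transpose + η • 1) -
        ((Matrix.of fun (i : {i // S i}) j => W i.1 j) * N.transpose) * D⁻¹ *
        ((Matrix.of fun (i : {i // S i}) j => W i.1 j) * N.transpose).transpose).det := by
    intro W hW
    unfold gd
    rw [← Matrix.det_submatrix_equiv_self e, hsplit W hW, Matrix.det_fromBlocks₂₂,
      Matrix.invOf_eq_nonsing_inv]
  have hpsd : ∀ (W : Matrix I J ℝ), (∀ i j, ¬ S i → Z i j = W i j) →
      ((((Matrix.of fun (i : {i // S i}) j => W i.1 j) *
        (Matrix.of fun (i : {i // S i}) j => W i.1 j).transpose + η • 1) -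
        ((Matrix.of fun (i : {i // S i}) j => W i.1 j) * N.transpose) * D⁻¹ *
        ((Matrix.of fun (i : {i // S i}) j => W i.1 j) * N.transpose).transpose) -
        η • (1 : Matrix {i // S i} {i // S i} ℝ)).PosSemidef := by
    intro W hW
    set Q : Matrix {i // S i} J ℝ := Matrix.of fun (i : {i // S i}) j => W i.1 j with hQ
    have h1 : (Matrix.fromBlocks (Q * Q.transpose) (Q * N.transpose)
        (Q * N.transpose).transpose D).PosSemidef := by
      have h2 : Matrix.fromBlocks (Q * Q.transpose) (Q * N.transpose)
        (Q * N.transpose).transpose D = (Matrix.fromRows Q N) * (Matrix.fromRows Q N).transpose +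
          Matrix.fromBlocks 0 0 0 (η • (1 : Matrix {i // ¬ S i} {i // ¬ S i} ℝ)) := by
        rw [Matrix.transpose_fromRows, Matrix.fromRows_mul_fromCols, Matrix.fromBlocks_add, hD]
        simp
      rw [h2]
      refine Matrix.PosSemidef.add ?_ ?_
      · simpa using Matrix.posSemidef_self_mul_conjTranspose (Matrix.fromRows Q N)
      · have h3 : Matrix.fromBlocks 0 0 0 (η • (1 : Matrix {i // ¬ S i} {i // ¬ S i} ℝ)) =
            Matrix.diagonal (Sum.elim (fun _ : {i // S i} => (0 : ℝ))
              (fun _ : {i // ¬ S i} => η)) := by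
          ext s t
          rcases s with s | s <;> rcases t with t | t <;>
            simp [Matrix.diagonal_apply, Matrix.one_apply]
        rw [h3]
        refine Matrix.PosSemidef.diagonal ?_
        intro x
        rcases x with x | x
        · simp
        · simpa using hη.le
    have h4 := (Matrix.PosDef.fromBlocks₂₂ (Q * Q.transpose) (Q * N.transpose) hDpd).mp
      (by simpa using h1)
    have h5 : Q * Q.transpose + η • (1 : Matrix {i // S i} {i // S i} ℝ) -
        (Q * N.transpose) * D⁻¹ * (Q * N.transpose).transpose -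
        η • (1 : Matrix {i // S i} {i // S i} ℝ) =
        Q * Q.transpose - (Q * N.transpose) * D⁻¹ * (Q * N.transpose).transpose := by abel
    rw [h5]
    simpa using h4
  have hpos : 0 < D.det := hDpd.det_pos
  have hZZ : ∀ i j, ¬ S i → Z i j = Z i j := fun _ _ _ => rfl
  rw [hgd Z hZZ, hgd Z' hZ]
  have hone : (1 : Matrix {i // S i} {i // S i} ℝ).PosSemidef := Matrix.PosSemidef.one
  have low := dmo _ _ _ (hone.smul hη.le) (hpsd Z hZZ)
  rw [Matrix.det_smul, Matrix.det_one, mul_one] at low
  set Q : Matrix {i // S i} J ℝ := Matrix.of fun (i : {i // S i}) j => Z' i.1 j with hQ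
  have hS1 : ((Q * Q.transpose + η • 1) - (Q * N.transpose) * D⁻¹ *
      (Q * N.transpose).transpose).PosSemidef := by
    have := (hpsd Z' hZ).add (hone.smul hη.le)
    simpa using this
  have hS2 : ((K + η) • (1 : Matrix {i // S i} {i // S i} ℝ) -
      ((Q * Q.transpose + η • 1) - (Q * N.transpose) * D⁻¹ *
      (Q * N.transpose).transpose)).PosSemidef := by
    have h1 : (K • (1 : Matrix {i // S i} {i // S i} ℝ) - Q * Q.transpose).PosSemidef := by
      have h2 := hKZ.submatrix (fun i : {i // S i} => i.1)
      have h3 : (K • (1 : Matrix I I ℝ) - Z' * Z'.transpose).submatrix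
          (fun i : {i // S i} => i.1) (fun i : {i // S i} => i.1) =
          K • (1 : Matrix {i // S i} {i // S i} ℝ) - Q * Q.transpose := by
        ext s t
        simp [Matrix.mul_apply, Matrix.one_apply, Subtype.ext_iff, hQ]
      rw [h3] at h2
      exact h2
    have h4 : ((Q * N.transpose) * D⁻¹ * (Q * N.transpose).transpose).PosSemidef := by
      have h5 := hDpd.inv.posSemidef.mul_mul_conjTranspose_same (Q * N.transpose)
      simpa using h5
    have h6 : (K + η) • (1 : Matrix {i // S i} {i // S i} ℝ) -
      ((Q * Q.transpose + η • 1) - (Q * N.transpose) * D⁻¹ * (Q * N.transpose).transpose) =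
      (K • (1 : Matrix {i // S i} {i // S i} ℝ) - Q * Q.transpose) +
      (Q * N.transpose) * D⁻¹ * (Q * N.transpose).transpose := by
      rw [add_smul]; abel
    rw [h6]
    exact h1.add h4
  have up := dmo _ _ _ hS1 hS2
  rw [Matrix.det_smul, Matrix.det_one, mul_one] at up
  calc η ^ Fintype.card {i // S i} * (D.det * ((Q * Q.transpose + η • 1) -
        (Q * N.transpose) * D⁻¹ * (Q * N.transpose).transpose).det)
      ≤ η ^ Fintype.card {i // S i} * (D.det * (K + η) ^ Fintype.card {i // S i}) := by
        have : 0 ≤ η ^ Fintype.card {i // S i} := by positivity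
        gcongr
    _ = (K + η) ^ Fintype.card {i // S i} * (D.det * η ^ Fintype.card {i // S i}) := by ring
    _ ≤ _ := by
        have : 0 ≤ (K + η) ^ Fintype.card {i // S i} := by positivity
        gcongr

end Pool.LU.FK
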