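import Pool.Agent.H87.LUY.Stmts

set_option autoImplicit false

namespace Pool.LU.FK

theorem scb (dmo : DMOStmt) : SCBStmt := by
  intro I J K _ _ _ _ _ b a B ε hε hB hb
  have h1 : (0 : ℝ) < 1 + ε := by linarith
  have hfb : Matrix.fromBlocks (1 : Matrix J J ℝ) b.transpose b
      (b * b.transpose + a * a.transpose) + ε • (1 : Matrix (J ⊕ I) (J ⊕ I) ℝ) =
      Matrix.fromBlocks ((1 + ε) • (1 : Matrix J J ℝ)) b.transpose b
      (b * b.transpose + a * a.transpose + ε • (1 : Matrix I I ℝ)) := by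
    rw [← Matrix.fromBlocks_one, Matrix.fromBlocks_smul, Matrix.fromBlocks_add]
    simp [add_smul]
  have hinv : ((1 + ε) • (1 : Matrix J J ℝ)) * ((1 + ε)⁻¹ • (1 : Matrix J J ℝ)) = 1 := by
    rw [Matrix.smul_mul, Matrix.one_mul, smul_smul, mul_inv_cancel₀ h1.ne', one_smul]
  have hinv' : ((1 + ε)⁻¹ • (1 : Matrix J J ℝ)) * ((1 + ε) • (1 : Matrix J J ℝ)) = 1 := by
    rw [Matrix.smul_mul, Matrix.one_mul, smul_smul, inv_mul_cancel₀ h1.ne', one_smul]
  let inst : Invertible ((1 + ε) • (1 : Matrix J J ℝ)) := ⟨_, hinv', hinv⟩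
  have hinv2 : ⅟((1 + ε) • (1 : Matrix J J ℝ)) = (1 + ε)⁻¹ • (1 : Matrix J J ℝ) :=
    invOf_eq_right_inv hinv
  rw [hfb, Matrix.det_fromBlocks₁₁, hinv2, Matrix.det_smul, Matrix.det_one, mul_one]
  refine mul_le_mul_of_nonneg_left ?_ (by positivity)
  unfold gd
  have hbb : (b * b.transpose).PosSemidef := by
    simpa using Matrix.posSemidef_self_mul_conjTranspose b
  have haa : (a * a.transpose).PosSemidef := by
    simpa using Matrix.posSemidef_self_mul_conjTranspose a
  have hone : (1 : Matrix I I ℝ).PosSemidef := Matrix.PosSemidef.one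
  have hε2 : (1 + ε)⁻¹ ≤ 1 := inv_le_one_of_one_le₀ (by linarith)
  have he : b * b.transpose + a * a.transpose + ε • (1 : Matrix I I ℝ) -
      b * ((1 + ε)⁻¹ • (1 : Matrix J J ℝ)) * b.transpose =
      a * a.transpose + ε • (1 : Matrix I I ℝ) + (1 - (1 + ε)⁻¹) • (b * b.transpose) := by
    rw [Matrix.mul_smul, Matrix.mul_one, Matrix.smul_mul, sub_smul, one_smul]
    abel
  rw [he]
  apply dmo
  · exact (haa.add (hone.smul hε.le)).add (hbb.smul (by linarith))
  · have hc : (1 - (1 + ε)⁻¹) = ε * (1 + ε)⁻¹ := by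
      field_simp
      ring
    have h5 : a * a.transpose + (ε * (1 + B)) • (1 : Matrix I I ℝ) -
        (a * a.transpose + ε • (1 : Matrix I I ℝ) + (1 - (1 + ε)⁻¹) • (b * b.transpose)) =
        ε • (B • (1 : Matrix I I ℝ) - b * b.transpose) +
        (ε * (1 - (1 + ε)⁻¹)) • (b * b.transpose) := by
      ext i j
      simp only [Matrix.sub_apply, Matrix.add_apply, Matrix.smul_apply, smul_eq_mul]
      linear_combination (-((b * b.transpose) i j)) * hc
    rw [h5]
    exact (hb.smul hε.le).add (hbb.smul (mul_nonneg hε.le (by linarith)))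

end Pool.LU.FK
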