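import Pool.Agent.H87.LUY.Stmts

set_option autoImplicit false

namespace Pool.LU.FK

theorem sgd : SGDStmt := by
  intro I J _ _ _ _ A B e σ h ε
  have hσ : ∀ j, (((σ j : ℤ) : ℝ)) * ((σ j : ℤ) : ℝ) = 1 := by
    intro j
    rcases Int.units_eq_one_or (σ j) with h1 | h1 <;> rw [h1] <;> norm_num
  set S : Matrix I I ℝ := Matrix.diagonal (fun s => ((σ (e s) : ℤ) : ℝ)) with hSdef
  have hS : S * S = 1 := by
    rw [hSdef, Matrix.diagonal_mul_diagonal, ← Matrix.diagonal_one]
    congr 1
    funext i
    exact hσ _
  have hA : A = S * (B.submatrix e e) * S := by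
    ext s t
    rw [hSdef, Matrix.mul_diagonal, Matrix.diagonal_mul, h s t, Matrix.submatrix_apply]
    ring
  have key : ∀ C : Matrix I I ℝ, (S * C * S).det = C.det := by
    intro C
    have h2 : S.det * S.det = 1 := by
      rw [← Matrix.det_mul, hS, Matrix.det_one]
    rw [Matrix.det_mul, Matrix.det_mul]
    calc S.det * C.det * S.det = C.det * (S.det * S.det) := by ring
      _ = C.det := by rw [h2, mul_one]
  have hsub : ∀ C : Matrix J J ℝ, (C.submatrix e e + ε • (1 : Matrix I I ℝ)).det =
      (C + ε • (1 : Matrix J J ℝ)).det := by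
    intro C
    rw [← Matrix.det_submatrix_equiv_self e (C + ε • (1 : Matrix J J ℝ))]
    congr 1
    ext s t
    simp [Matrix.one_apply, e.injective.eq_iff]
  constructor
  · have h3 : A + ε • (1 : Matrix I I ℝ) = S * (B.submatrix e e + ε • (1 : Matrix I I ℝ)) * S := by
      rw [Matrix.mul_add, Matrix.add_mul, ← hA, Matrix.mul_smul, Matrix.smul_mul, Matrix.mul_one,
        hS]
    rw [h3, key, hsub]
  · have h4 : A ^ 2 = S * ((B ^ 2).submatrix e e) * S := by
      have h5 : (B ^ 2).submatrix e e = B.submatrix e e * B.submatrix e e := by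
        rw [pow_two, Matrix.submatrix_mul_equiv]
      rw [pow_two, h5, hA]
      calc S * B.submatrix e e * S * (S * B.submatrix e e * S)
          = S * B.submatrix e e * (S * S) * B.submatrix e e * S := by
            simp only [Matrix.mul_assoc]
        _ = S * (B.submatrix e e * B.submatrix e e) * S := by
            rw [hS, Matrix.mul_one]; simp only [Matrix.mul_assoc]
    have h3 : A ^ 2 + ε • (1 : Matrix I I ℝ) =
        S * ((B ^ 2).submatrix e e + ε • (1 : Matrix I I ℝ)) * S := by
      rw [Matrix.mul_add, Matrix.add_mul, ← h4, Matrix.mul_smul, Matrix.smul_mul, Matrix.mul_one,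
        hS]
    rw [h3, key, hsub]

end Pool.LU.FK
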